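import Pool.Agent.H891R3.Kag.Stmts

/-! For `n = 2` every colouring is joined to the columnar one: finite check. -/

set_option autoImplicit false

namespace Pool.Agent.H787R3.Kag

open Pool.Agent.H891R3.Kag

/-- the six permutations -/
def P : Fin 6 → Fin 3 → Fin 3 :=
  ![![0, 1, 2], ![0, 2, 1], ![1, 0, 2], ![1, 2, 0], ![2, 0, 1], ![2, 1, 0]]

/-- numbering of the four points -/
def ix (x : Pt 2) : Fin 4 :=
  if x.1 = 0 then (if x.2 = 0 then 0 else 1) else (if x.2 = 0 then 2 else 3)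

/-- the colouring with given permutations -/
def dec (p : Fin 4 → Fin 6) (t : Fin 3) (x : Pt 2) : Fin 3 := P (p (ix x)) t

/-- the 24 colourings -/
def codes : Fin 24 → Fin 4 → Fin 6 :=
  ![![0,0,0,0], ![2,0,2,0], ![0,2,0,2], ![2,2,2,2], ![5,5,0,0], ![0,0,5,5], ![5,5,5,5], ![1,0,0,1], ![0,1,1,0], ![1,1,1,1], ![3,5,3,5], ![4,1,4,1], ![5,3,5,3], ![1,4,1,4], ![3,2,2,3], ![2,3,3,2], ![3,3,3,3], ![4,4,2,2], ![2,2,4,4], ![4,4,4,4], ![3,3,1,1], ![1,1,3,3], ![4,5,5,4], ![5,4,4,5]]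

/-- the next colouring on the way to the columnar one -/
def par : Fin 24 → Fin 24 := ![0, 0, 0, 0, 0, 0, 0, 0, 0, 0, 1, 1, 2, 2, 3, 3, 3, 3, 3, 3, 4, 5, 6, 6]

/-- first colour -/
def sa : Fin 24 → Fin 3 := ![0, 0, 0, 0, 0, 0, 0, 1, 1, 1, 0, 1, 0, 1, 0, 0, 0, 1, 1, 1, 1, 1, 0, 0]

/-- second colour -/
def sb : Fin 24 → Fin 3 := ![1, 1, 1, 1, 2, 2, 2, 2, 2, 2, 2, 2, 2, 2, 2, 2, 2, 2, 2, 2, 2, 2, 1, 1]

/-- bit masks of the swapped sets -/
def mk : Fin 24 → ℕ := ![0, 85, 170, 255, 771, 3084, 3855, 2448, 1632, 4080, 3930, 4005, 4005, 3930, 2448, 1632, 4080, 771, 3084, 3855, 3315, 1020, 2448, 1632]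

/-- the swapped sets -/
def UU (i : Fin 24) (t : Fin 3) (x : Pt 2) : Bool := (mk i).testBit (4 * t.val + (ix x).val)

theorem chk1 : ∀ i : Fin 24, sa i ≠ sb i ∧ par (par i) = 0 := by decide +kernel

theorem chk2 : ∀ (i : Fin 24) (t : Fin 3) (x : Pt 2), UU i t x = true →
    dec (codes i) t x = sa i ∨ dec (codes i) t x = sb i := by decide +kernel

theorem chk3 : ∀ (i : Fin 24) (x : Pt 2) (s t : Fin 3), UU i s x = true →
    (dec (codes i) t x = sa i ∨ dec (codes i) t x = sb i) → UU i t x = true := by decide +kernel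

theorem chk4 : ∀ (i : Fin 24) (x : Pt 2) (s t : Fin 3), UU i s (x + dd 2 s) = true →
    (dec (codes i) t (x + dd 2 t) = sa i ∨ dec (codes i) t (x + dd 2 t) = sb i) →
      UU i t (x + dd 2 t) = true := by decide +kernel

theorem chk5 : ∀ (i : Fin 24) (t : Fin 3) (x : Pt 2), UU i t x = true →
    dec (codes (par i)) t x = Equiv.swap (sa i) (sb i) (dec (codes i) t x) := by decide +kernel

theorem chk6 : ∀ (i : Fin 24) (t : Fin 3) (x : Pt 2), ¬ UU i t x = true →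
    dec (codes (par i)) t x = dec (codes i) t x := by decide +kernel

theorem swp (i : Fin 24) : Swp 2 (dec (codes i)) (dec (codes (par i))) :=
  ⟨sa i, sb i, (chk1 i).1, fun t x => UU i t x = true, chk2 i, chk3 i, chk4 i, chk5 i, chk6 i⟩

theorem perm_code : ∀ u v w : Fin 3, u ≠ v → v ≠ w → u ≠ w →
    ∃ p : Fin 6, P p 0 = u ∧ P p 1 = v ∧ P p 2 = w := by decide +kernel

theorem all_codes : ∀ a b c d : Fin 6,
    (P a 0 ≠ P c 1 ∧ P c 1 ≠ P b 2 ∧ P a 0 ≠ P b 2) → (P b 0 ≠ P d 1 ∧ P d 1 ≠ P a 2 ∧ P b 0 ≠ P a 2) →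
    (P c 0 ≠ P a 1 ∧ P a 1 ≠ P d 2 ∧ P c 0 ≠ P d 2) → (P d 0 ≠ P b 1 ∧ P b 1 ≠ P c 2 ∧ P d 0 ≠ P c 2) →
    ∃ i : Fin 24, codes i 0 = a ∧ codes i 1 = b ∧ codes i 2 = c ∧ codes i 3 = d := by
  decide +kernel

theorem pts : ∀ x : Pt 2, x = (0, 0) ∨ x = (0, 1) ∨ x = (1, 0) ∨ x = (1, 1) := by decide +kernel

theorem exists_code (e : Fin 3 → Pt 2 → Fin 3) (h : Good 2 e) : ∃ i, e = dec (codes i) := by
  have h1 : ∀ x, ∃ p : Fin 6, P p 0 = e 0 x ∧ P p 1 = e 1 x ∧ P p 2 = e 2 x := fun x =>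
    perm_code _ _ _ (h.1 x).1 (h.1 x).2.1 (h.1 x).2.2
  choose p hp0 hp1 hp2 using h1
  have hB := h.2
  simp only [← hp0, ← hp1, ← hp2] at hB
  have a1 : ((0, 0) : Pt 2) + (1, 0) = (1, 0) := by decide +kernel
  have a2 : ((0, 0) : Pt 2) + (0, 1) = (0, 1) := by decide +kernel
  have a3 : ((0, 1) : Pt 2) + (1, 0) = (1, 1) := by decide +kernel
  have a4 : ((0, 1) : Pt 2) + (0, 1) = (0, 0) := by decide +kernel
  have a5 : ((1, 0) : Pt 2) + (1, 0) = (0, 0) := by decide +kernel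
  have a6 : ((1, 0) : Pt 2) + (0, 1) = (1, 1) := by decide +kernel
  have a7 : ((1, 1) : Pt 2) + (1, 0) = (0, 1) := by decide +kernel
  have a8 : ((1, 1) : Pt 2) + (0, 1) = (1, 0) := by decide +kernel
  have b1 := hB (0, 0)
  have b2 := hB (0, 1)
  have b3 := hB (1, 0)
  have b4 := hB (1, 1)
  rw [a1, a2] at b1
  rw [a3, a4] at b2
  rw [a5, a6] at b3
  rw [a7, a8] at b4
  obtain ⟨i, i1, i2, i3, i4⟩ := all_codes (p (0, 0)) (p (0, 1)) (p (1, 0)) (p (1, 1)) b1 b2 b3 b4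
  refine ⟨i, ?_⟩
  have hix : ∀ x, codes i (ix x) = p x := by
    intro x
    rcases pts x with rfl | rfl | rfl | rfl
    · exact i1
    · exact i2
    · exact i3
    · exact i4
  have ht : ∀ t : Fin 3, t = 0 ∨ t = 1 ∨ t = 2 := by decide
  funext t x
  rw [dec, hix]
  rcases ht t with rfl | rfl | rfl
  · exact (hp0 x).symm
  · exact (hp1 x).symm
  · exact (hp2 x).symm

theorem code_zero : ∀ (t : Fin 3) (x : Pt 2), dec (codes 0) t x = col0 2 t x := by decide +kernel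

theorem taskErg : TaskErg := by
  intro e he
  obtain ⟨i, rfl⟩ := exists_code e he
  have h0 : dec (codes 0) = col0 2 := by
    funext t x
    exact code_zero t x
  rw [← h0]
  have h1 := swp i
  have h2 := swp (par i)
  rw [(chk1 i).2] at h2
  exact Relation.ReflTransGen.head h1 (Relation.ReflTransGen.single h2)

end Pool.Agent.H787R3.Kag
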